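import Pool.Agent.Run7.h991.PS.Iface

open MeasureTheory

namespace H991.PS

/-- scalar rotation -/
noncomputable def h29rot {n : ℕ} (c : ℂ) (hc : ‖c‖ = 1) : V n ≃ₗᵢ[ℂ] V n where
  toLinearEquiv := LinearEquiv.smulOfNeZero ℂ (V n) c (by rintro rfl; simp at hc)
  norm_map' := fun x => by
    show ‖c • x‖ = ‖x‖
    rw [norm_smul, hc, one_mul]

theorem h29rot_apply {n : ℕ} (c : ℂ) (hc : ‖c‖ = 1) (x : V n) : h29rot c hc x = c • x := rfl

theorem t_ZER : S_ZER := by
  intro n σ _ hσ k hk F hF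
  set c : ℂ := Complex.exp (((Real.pi / k : ℝ) : ℂ) * Complex.I) with hcdef
  have hc : ‖c‖ = 1 := Complex.norm_exp_ofReal_mul_I _
  have hk' : (k : ℝ) ≠ 0 := by exact_mod_cast hk
  have hck : c ^ k = -1 := by
    rw [hcdef, ← Complex.exp_int_mul]
    have : (k : ℂ) * (((Real.pi / k : ℝ) : ℂ) * Complex.I) = Real.pi * Complex.I := by
      have : (k : ℂ) ≠ 0 := by exact_mod_cast hk
      push_cast
      field_simp
    rw [this, Complex.exp_pi_mul_I]
  have h1 := hσ.int (h29rot c hc) F.continuous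
  have h2 : ∀ z : S n, F (act (h29rot c hc) z) = -F z := by
    intro z
    rw [hF c hc z (act (h29rot c hc) z) (h29rot_apply c hc z.1), hck]
    ring
  simp only [h2] at h1
  rw [integral_neg] at h1
  have h3 : (2 : ℂ) * ∫ z, F z ∂σ = 0 := by linear_combination -h1
  simpa using h3

theorem t_SQI : S_SQI := by
  intro s x hs hx
  have hx' := abs_le.1 hx
  have hs2 : 0 < s ^ 2 := by positivity
  have key : s + x / (2 * s) - x ^ 2 / (16 * s ^ 3)
      = s * (1 + (x / s ^ 2) / 2 - (x / s ^ 2) ^ 2 / 16) := by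
    field_simp
  set y := x / s ^ 2 with hy
  have hy1 : y ≤ 1 / 2 := by rw [hy, div_le_iff₀ hs2]; linarith
  have hy2 : -(1 / 2) ≤ y := by rw [hy, le_div_iff₀ hs2]; linarith
  have hxy : x = y * s ^ 2 := by rw [hy]; field_simp
  have hpos : 0 ≤ 1 + y / 2 - y ^ 2 / 16 := by nlinarith
  rw [key]
  apply Real.sqrt_le_iff.2
  refine ⟨by positivity, ?_⟩
  have e : s ^ 2 + x = s ^ 2 * (1 + y) := by rw [hxy]; ring
  rw [e, mul_pow]
  refine mul_le_mul_of_nonneg_left ?_ hs2.le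
  have : (1 + y / 2 - y ^ 2 / 16) ^ 2 - (1 + y) = y ^ 2 * (1 / 8 - y / 16 + y ^ 2 / 256) := by ring
  have h3 : 0 ≤ y ^ 2 * (1 / 8 - y / 16 + y ^ 2 / 256) := by
    refine mul_nonneg (sq_nonneg _) ?_
    nlinarith [sq_nonneg y]
  linarith

end H991.PS
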