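import Pool.Agent.Run7.h991.PS.Iface

open MeasureTheory

namespace H991.PS

theorem h29_const_mem {n : ℕ} (a : ℂ) : algebraMap ℂ C(S n, ℂ) a ∈ Fr n 0 := by
  intro c _ z w _
  simp

/-- the star subalgebra `FrAll` -/
noncomputable def h29A (hF : S_FMUL) (n : ℕ) : StarSubalgebra ℂ C(S n, ℂ) where
  carrier := FrAll n
  mul_mem' := fun {_ _} ha hb => (hF n).2.1 _ ha _ hb
  add_mem' := fun {_ _} ha hb => (FrAll n).add_mem ha hb
  algebraMap_mem' := fun a => Submodule.subset_span ⟨0, h29_const_mem a⟩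
  star_mem' := fun {a} ha => (hF n).2.2.1 a ha

theorem t_DEN (hF : S_FMUL) : S_DEN := by
  intro n ψ ε hε
  have hsep : (h29A hF n).SeparatesPoints := by
    intro z w hzw
    refine ⟨pw z 1, ⟨pw z 1, ?_, rfl⟩, ?_⟩
    · exact Submodule.subset_span ⟨((1 : ℕ) : ℤ), (hF n).2.2.2.2.1 z 1⟩
    · rw [pw_apply, pw_apply, pow_one, pow_one]
      unfold ip
      have h1 : inner ℂ z.1 z.1 = 1 := (inner_eq_one_iff_of_norm_eq_one (nrm z) (nrm z)).2 rfl
      rw [h1]
      intro h
      exact hzw (Subtype.ext ((inner_eq_one_iff_of_norm_eq_one (nrm z) (nrm w)).1 h.symm))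
  have htop := ContinuousMap.starSubalgebra_topologicalClosure_eq_top_of_separatesPoints
    (h29A hF n) hsep
  have hψ : ψ ∈ (h29A hF n).topologicalClosure := by rw [htop]; trivial
  have hψ' : ψ ∈ closure ((h29A hF n : StarSubalgebra ℂ C(S n, ℂ)) : Set C(S n, ℂ)) := hψ
  obtain ⟨G, hG, hd⟩ := Metric.mem_closure_iff.1 hψ' ε hε
  refine ⟨G, hG, ?_⟩
  rw [← dist_eq_norm]
  exact hd.le

theorem h29_map {n : ℕ} (U : V n ≃ₗᵢ[ℂ] V n) (μ : Measure (V n)) [μ.IsAddHaarMeasure] :
    Measure.map U μ = μ := by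
  obtain ⟨L, hLU⟩ : ∃ L : V n ≃L[ℝ] V n, ∀ x, L x = U x :=
    ⟨(U.toContinuousLinearEquiv).restrictScalars ℝ, fun _ => rfl⟩
  have : (Measure.map L μ).IsAddHaarMeasure := L.isAddHaarMeasure_map μ
  obtain ⟨c, hc⟩ : ∃ c : NNReal, Measure.map L μ = c • μ :=
    ⟨_, Measure.isAddLeftInvariant_eq_smul (Measure.map L μ) μ⟩
  have hL : Measure.map L μ = Measure.map U μ := by
    congr 1
    funext x
    exact hLU x
  have hball : Measure.map L μ (Metric.ball 0 1) = μ (Metric.ball 0 1) := by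
    rw [Measure.map_apply L.continuous.measurable measurableSet_ball]
    have hs : (L : V n → V n) ⁻¹' (Metric.ball 0 1) = Metric.ball 0 1 := by
      apply Set.ext
      intro x
      rw [Set.mem_preimage, mem_ball_zero_iff, mem_ball_zero_iff, hLU, U.norm_map]
    rw [hs]
  have hp : μ (Metric.ball (0 : V n) 1) ≠ 0 := (Metric.measure_ball_pos μ 0 one_pos).ne'
  have hf : μ (Metric.ball (0 : V n) 1) ≠ ⊤ := measure_ball_lt_top.ne
  have hc1 : c = 1 := by
    have h2 : (c : ENNReal) * μ (Metric.ball (0 : V n) 1) = μ (Metric.ball 0 1) := by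
      have h3 : Measure.map L μ (Metric.ball 0 1) = c • μ (Metric.ball 0 1) := by
        rw [hc, Measure.smul_apply]
      exact (h3.symm.trans hball)
    have := (ENNReal.mul_eq_right hp hf).1 h2
    exact_mod_cast this
  rw [← hL, hc, hc1, one_smul]

open Pointwise in
theorem h29_set {n : ℕ} (U : V n ≃ₗᵢ[ℂ] V n) (s : Set (S n)) :
    (Set.Ioo (0 : ℝ) 1 • ((↑) '' (act U ⁻¹' s)) : Set (V n))
      = U ⁻¹' (Set.Ioo (0 : ℝ) 1 • ((↑) '' s)) := by
  ext x
  rw [Set.mem_preimage, Set.mem_smul, Set.mem_smul]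
  constructor
  · rintro ⟨r, hr, y, ⟨z, hz, rfl⟩, rfl⟩
    refine ⟨r, hr, (act U z).1, ⟨act U z, hz, rfl⟩, ?_⟩
    show r • U z.1 = U (r • z.1)
    have := (U.toContinuousLinearEquiv.restrictScalars ℝ).map_smul r z.1
    exact this.symm
  · rintro ⟨r, hr, y, ⟨z, hz, rfl⟩, hx⟩
    refine ⟨r, hr, U.symm z.1, ⟨act U.symm z, ?_, rfl⟩, ?_⟩
    · show act U (act U.symm z) ∈ s
      have : act U (act U.symm z) = z := Subtype.ext (U.apply_symm_apply z.1)
      rwa [this]
    · have h2 : U.symm (r • z.1) = x := by rw [hx]; exact U.symm_apply_apply x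
      rw [← h2]
      exact ((U.symm.toContinuousLinearEquiv.restrictScalars ℝ).map_smul r z.1).symm

theorem h29_inv {n : ℕ} (μ : Measure (V n)) [μ.IsAddHaarMeasure] : RotInv μ.toSphere := by
  intro U
  ext s hs
  rw [Measure.map_apply (continuous_act U).measurable hs,
    Measure.toSphere_apply' _ ((continuous_act U).measurable hs), Measure.toSphere_apply' _ hs,
    h29_set]
  congr 1
  conv_rhs => rw [← h29_map U μ]
  exact (U.toHomeomorph.toMeasurableEquiv.map_apply _).symm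

theorem t_EXI : S_EXI := by
  intro n hn
  have : Nonempty (Fin n) := ⟨⟨0, hn⟩⟩
  have : Nontrivial (V n) := inferInstance
  have : NeZero (Measure.addHaar : Measure (V n)).toSphere :=
    ⟨(Measure.addHaar : Measure (V n)).toSphere_ne_zero⟩
  refine ⟨((Measure.addHaar : Measure (V n)).toSphere Set.univ)⁻¹ •
    (Measure.addHaar : Measure (V n)).toSphere, inferInstance, ?_⟩
  intro U
  rw [Measure.map_smul, h29_inv _ U]

end H991.PS
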